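import Pool.Agent.W622.ETC.Stm

/-! ELT-GLUE -/

set_option autoImplicit false

namespace Pool.Agent.W108.ELT

open Pool.Agent.W622.ETC Module

theorem t_GLUE : S_GLUE := by
  intro V _ _ _ s α hs
  have hfin : Finite (Dl V) := by
    unfold Dl
    exact Finite.of_injective (fun f : V →ₗ[ZMod 2] ZMod 2 => (f : V → ZMod 2))
      DFunLike.coe_injective
  have hfin2 : Finite (DSub V) :=
    Finite.of_injective (fun X : DSub V => (X : Set (Dl V))) SetLike.coe_injective
  have hsf : s.Finite := Set.toFinite s
  induction s, hsf using Set.Finite.induction_on with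
  | empty => exact ⟨0, fun X hX => absurd hX (Set.notMem_empty X)⟩
  | insert hX _ ih =>
    rename_i X s _
    obtain ⟨a', ha'⟩ := ih (hs.mono (Set.subset_insert X s))
    have h1 : Disjoint X (sSup s) := by
      have h2 := hs (Set.mem_insert X s)
      rwa [Set.insert_sdiff_self_of_notMem hX] at h2
    obtain ⟨a, h3, h4⟩ := exists_glue h1 (α X) a'
    refine ⟨a, fun Y hY f hf => ?_⟩
    rcases Set.mem_insert_iff.1 hY with rfl | hY
    · exact h3 f hf
    · rw [h4 f ((le_sSup hY) hf), ha' Y hY f hf]

end Pool.Agent.W108.ELT
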